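import Pool.Agent.H8.Obtuse

set_option autoImplicit false

namespace Pool.Agent.Results.MP_6251d3_co.Cubic

open Real EuclideanGeometry

/-- For every obtuse `α` and every `n`, some `n` points of `ℝ⁶` span `⌊n/3⌋³` angles `α`. -/
theorem result (α : ℝ) (h0 : π / 2 < α) (h1 : α < π) (n : ℕ) :
    ∃ S : Finset (EuclideanSpace ℝ (Fin 6)), S.card = n ∧
      (n / 3) ^ 3 ≤ {t : EuclideanSpace ℝ (Fin 6) × EuclideanSpace ℝ (Fin 6) ×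
        EuclideanSpace ℝ (Fin 6) | t.1 ∈ S ∧ t.2.1 ∈ S ∧ t.2.2 ∈ S ∧ t.1 ≠ t.2.1 ∧ t.1 ≠ t.2.2 ∧
        t.2.1 ≠ t.2.2 ∧ ∠ t.1 t.2.1 t.2.2 = α}.ncard :=
  Pool.Agent.H8.Obtuse.main α h0 h1 n

end Pool.Agent.Results.MP_6251d3_co.Cubic
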